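import Pool.Agent.W712.RP.Stm

set_option autoImplicit false

open MeasureTheory Set Filter Topology
open scoped ENNReal

namespace Pool.Agent.W880.RP

open Pool.Agent.W712.RP

/-- comparison of the distribution functions of `f` and `h` -/
def Dom (α β : ℝ≥0∞) {Ω M : Type} [MeasurableSpace Ω] [MeasurableSpace M] (P : Measure Ω)
    (f : Ω → ℝ) (U : Measure M) (h : M → ℝ) : Prop :=
  ∀ x : ℝ, 0 ≤ x → ∀ t : ℝ, 0 < t → α * P {ω | f ω * x ≤ t} ≤ β * U {r | h r * x ≤ t}

/-- one half of the comparison of products: replace the first factor -/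
theorem half {Ω Ω' M : Type} [MeasurableSpace Ω] [MeasurableSpace Ω'] [MeasurableSpace M]
    (P : Measure Ω) (P' : Measure Ω') (U : Measure M) [SFinite P] [SFinite P'] [SFinite U]
    (f : Ω → ℝ) (f' : Ω' → ℝ) (h : M → ℝ) (hf : Measurable f) (hf' : Measurable f')
    (hh : Measurable h) (hf'0 : ∀ w, 0 ≤ f' w) (α β : ℝ≥0∞) (h1 : Dom α β P f U h)
    (x : ℝ) (hx : 0 ≤ x) (t : ℝ) (ht : 0 < t) :
    α * (P.prod P') {p | f p.1 * f' p.2 * x ≤ t} ≤
      β * (U.prod P') {p | h p.1 * f' p.2 * x ≤ t} := by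
  have hm1 : MeasurableSet {p : Ω × Ω' | f p.1 * f' p.2 * x ≤ t} :=
    measurableSet_le (((hf.comp measurable_fst).mul (hf'.comp measurable_snd)).mul_const x)
      measurable_const
  have hm2 : MeasurableSet {p : M × Ω' | h p.1 * f' p.2 * x ≤ t} :=
    measurableSet_le (((hh.comp measurable_fst).mul (hf'.comp measurable_snd)).mul_const x)
      measurable_const
  rw [Measure.prod_apply_symm hm1, Measure.prod_apply_symm hm2,
    ← lintegral_const_mul α (measurable_measure_prodMk_right hm1),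
    ← lintegral_const_mul β (measurable_measure_prodMk_right hm2)]
  refine lintegral_mono fun w => ?_
  have h2 := h1 (f' w * x) (mul_nonneg (hf'0 w) hx) t ht
  have e1 : (fun ω : Ω => (ω, w)) ⁻¹' {p : Ω × Ω' | f p.1 * f' p.2 * x ≤ t} =
      {ω | f ω * (f' w * x) ≤ t} := by
    ext ω
    simp only [mem_preimage, mem_ofPred_eq, mul_assoc]
  have e2 : (fun ω : M => (ω, w)) ⁻¹' {p : M × Ω' | h p.1 * f' p.2 * x ≤ t} =
      {ω | h ω * (f' w * x) ≤ t} := by
    ext ω
    simp only [mem_preimage, mem_ofPred_eq, mul_assoc]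
  show α * P ((fun ω : Ω => (ω, w)) ⁻¹' {p : Ω × Ω' | f p.1 * f' p.2 * x ≤ t}) ≤
    β * U ((fun ω : M => (ω, w)) ⁻¹' {p : M × Ω' | h p.1 * f' p.2 * x ≤ t})
  rw [e1, e2]
  exact h2

theorem swap_meas {Ω M : Type} [MeasurableSpace Ω] [MeasurableSpace M]
    (P : Measure Ω) (U : Measure M) [SFinite P] [SFinite U] (f : Ω → ℝ) (h : M → ℝ)
    (hf : Measurable f) (hh : Measurable h) (x t : ℝ) :
    (P.prod U) {p | f p.1 * h p.2 * x ≤ t} = (U.prod P) {p | h p.1 * f p.2 * x ≤ t} := by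
  have hm1 : MeasurableSet {p : Ω × M | f p.1 * h p.2 * x ≤ t} :=
    measurableSet_le (((hf.comp measurable_fst).mul (hh.comp measurable_snd)).mul_const x)
      measurable_const
  rw [← Measure.prod_swap, Measure.map_apply measurable_swap hm1]
  apply congrArg
  ext p
  simp only [mem_preimage, mem_ofPred_eq, Prod.fst_swap, Prod.snd_swap, mul_comm (f p.2)]

theorem dom_prod {Ω Ω' M M' : Type} [MeasurableSpace Ω] [MeasurableSpace Ω'] [MeasurableSpace M]
    [MeasurableSpace M'] (P : Measure Ω) (P' : Measure Ω') (U : Measure M) (U' : Measure M')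
    [SFinite P] [SFinite P'] [SFinite U] [SFinite U']
    (f : Ω → ℝ) (f' : Ω' → ℝ) (h : M → ℝ) (h' : M' → ℝ) (hf : Measurable f) (hf' : Measurable f')
    (hh : Measurable h) (hh' : Measurable h') (hf'0 : ∀ w, 0 ≤ f' w) (hh0 : ∀ r, 0 ≤ h r)
    (α β α' β' : ℝ≥0∞) (h1 : Dom α β P f U h) (h2 : Dom α' β' P' f' U' h') :
    Dom (α * α') (β * β') (P.prod P') (fun p => f p.1 * f' p.2) (U.prod U')
      (fun p => h p.1 * h' p.2) := by
  intro x hx t ht
  have h3 := half P P' U f f' h hf hf' hh hf'0 α β h1 x hx t ht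
  have h4 := half P' U U' f' h h' hf' hh hh' hh0 α' β' h2 x hx t ht
  rw [swap_meas P' U f' h hf' hh, swap_meas U' U h' h hh' hh] at h4
  calc α * α' * (P.prod P') {p | f p.1 * f' p.2 * x ≤ t}
      = α' * (α * (P.prod P') {p | f p.1 * f' p.2 * x ≤ t}) := by ring
    _ ≤ α' * (β * (U.prod P') {p | h p.1 * f' p.2 * x ≤ t}) := by gcongr
    _ = β * (α' * (U.prod P') {p | h p.1 * f' p.2 * x ≤ t}) := by ring
    _ ≤ β * (β' * (U.prod U') {p | h p.1 * h' p.2 * x ≤ t}) := by gcongr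
    _ = _ := by ring

theorem prod_meas {m : ℕ} {Ω : Fin m → Type} [∀ i, MeasurableSpace (Ω i)] {f : ∀ i, Ω i → ℝ}
    (hf : ∀ i, Measurable (f i)) : Measurable (fun ω : ∀ i, Ω i => ∏ i, f i (ω i)) := by
  refine Finset.measurable_prod _ fun j _ => ?_
  have h := (hf j).comp (measurable_pi_apply (X := Ω) j)
  exact h

/-- the product step with abstract data -/
theorem step {Ω M : Type} [MeasurableSpace Ω] [MeasurableSpace M] (P : Measure Ω) (U : Measure M)
    [IsProbabilityMeasure P] [IsProbabilityMeasure U] (f : Ω → ℝ) (h : M → ℝ)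
    (hf : Measurable f) (hh : Measurable h) (hh0 : ∀ r, 0 ≤ h r) {m : ℕ} {Ω' M' : Fin m → Type}
    [∀ i, MeasurableSpace (Ω' i)] [∀ i, MeasurableSpace (M' i)] (P' : ∀ i, Measure (Ω' i))
    (U' : ∀ i, Measure (M' i)) [∀ i, IsProbabilityMeasure (P' i)]
    [∀ i, IsProbabilityMeasure (U' i)] (f' : ∀ i, Ω' i → ℝ) (h' : ∀ i, M' i → ℝ)
    (hf' : ∀ i, Measurable (f' i)) (hh' : ∀ i, Measurable (h' i)) (hf'0 : ∀ i ω, 0 ≤ f' i ω)
    (α β α' β' : ℝ≥0∞) (h1 : Dom α β P f U h)
    (h2 : Dom α' β' (Measure.pi P') (fun ω => ∏ i, f' i (ω i)) (Measure.pi U')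
      (fun r => ∏ i, h' i (r i))) (x : ℝ) (hx : 0 ≤ x) (t : ℝ) (ht : 0 < t) :
    α * α' * (P.prod (Measure.pi P')) {p | f p.1 * (∏ j, f' j (p.2 j)) * x ≤ t} ≤
      β * β' * (U.prod (Measure.pi U')) {p | h p.1 * (∏ j, h' j (p.2 j)) * x ≤ t} :=
  dom_prod P (Measure.pi P') U (Measure.pi U') f (fun ω => ∏ i, f' i (ω i)) h
    (fun r => ∏ i, h' i (r i)) hf (prod_meas hf') hh (prod_meas hh')
    (fun _ => Finset.prod_nonneg fun _ _ => hf'0 _ _) hh0 α β α' β' h1 h2 x hx t ht

theorem dom_pi (α β : ℝ≥0∞) (m : ℕ) : ∀ (Ω M : Fin m → Type) [∀ i, MeasurableSpace (Ω i)]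
    [∀ i, MeasurableSpace (M i)] (P : ∀ i, Measure (Ω i)) (U : ∀ i, Measure (M i))
    [∀ i, IsProbabilityMeasure (P i)] [∀ i, IsProbabilityMeasure (U i)]
    (f : ∀ i, Ω i → ℝ) (h : ∀ i, M i → ℝ) (_ : ∀ i, Measurable (f i)) (_ : ∀ i, Measurable (h i))
    (_ : ∀ i ω, 0 ≤ f i ω) (_ : ∀ i ω, 0 ≤ h i ω) (_ : ∀ i, Dom α β (P i) (f i) (U i) (h i)),
    Dom (α ^ m) (β ^ m) (Measure.pi P) (fun ω => ∏ i, f i (ω i)) (Measure.pi U)
      (fun r => ∏ i, h i (r i)) := by
  induction m with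
  | zero =>
    intro Ω M _ _ P U _ _ f h _ _ _ _ _ x hx t ht
    simp only [Finset.univ_eq_empty, Finset.prod_empty, one_mul, pow_zero]
    by_cases hxt : x ≤ t
    · simp [hxt]
    · simp [hxt]
  | succ m ih =>
    intro Ω M _ _ P U _ _ f h hf hh hf0 hh0 hd x hx t ht
    have key : ∀ (Ω : Fin (m+1) → Type) [∀ i, MeasurableSpace (Ω i)] (P : ∀ i, Measure (Ω i))
        [∀ i, IsProbabilityMeasure (P i)] (f : ∀ i, Ω i → ℝ),
        Measure.pi P {ω | (∏ i, f i (ω i)) * x ≤ t} =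
        ((P 0).prod (Measure.pi fun j => P ((0 : Fin (m+1)).succAbove j)))
          {p | f 0 p.1 * (∏ j, f ((0 : Fin (m+1)).succAbove j) (p.2 j)) * x ≤ t} := by
      intro Ω _ P _ f
      have hp := measurePreserving_piFinSuccAbove P 0
      rw [← hp.measure_preimage_equiv]
      apply congrArg
      ext ω
      simp only [mem_preimage, mem_ofPred_eq]
      rw [Fin.prod_univ_succAbove _ 0]
      rfl
    rw [key Ω P f, key M U h, pow_succ', pow_succ']
    have h1 := ih (fun j => Ω ((0 : Fin (m+1)).succAbove j)) (fun j => M ((0 : Fin (m+1)).succAbove j))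
      (fun j => P ((0 : Fin (m+1)).succAbove j)) (fun j => U ((0 : Fin (m+1)).succAbove j))
      (fun j => f ((0 : Fin (m+1)).succAbove j)) (fun j => h ((0 : Fin (m+1)).succAbove j))
      (fun j => hf _) (fun j => hh _) (fun j => hf0 _) (fun j => hh0 _) (fun j => hd _)
    exact step (P 0) (U 0) (f 0) (h 0) (hf 0) (hh 0) (hh0 0)
      (fun j => P ((0 : Fin (m+1)).succAbove j)) (fun j => U ((0 : Fin (m+1)).succAbove j))
      (fun j => f ((0 : Fin (m+1)).succAbove j)) (fun j => h ((0 : Fin (m+1)).succAbove j))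
      (fun j => hf _) (fun j => hh _) (fun j => hf0 _) α β (α^m) (β^m) (hd 0) h1 x hx t ht

/-- the uniform distribution on the unit interval -/
noncomputable def U1 : Measure ℝ := volume.restrict (Icc 0 1)

instance : IsProbabilityMeasure U1 := by
  refine ⟨?_⟩
  rw [U1, Measure.restrict_apply_univ, Real.volume_Icc]
  simp

/-- the model function -/
noncomputable def hm (a r : ℝ) : ℝ := (max r 0) ^ (1 / a)

theorem hm_meas (a : ℝ) : Measurable (hm a) :=
  (measurable_id.max measurable_const).pow_const _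

theorem hm_nonneg (a r : ℝ) : 0 ≤ hm a r := Real.rpow_nonneg (le_max_right _ _) _

theorem hm_set {a : ℝ} (ha : 0 < a) {x t : ℝ} (hx : 0 < x) (ht : 0 < t) (hs : t / x ≤ 1) :
    U1 {r | hm a r * x ≤ t} = ENNReal.ofReal ((t / x) ^ a) := by
  have hm1 : MeasurableSet {r | hm a r * x ≤ t} :=
    measurableSet_le ((hm_meas a).mul_const x) measurable_const
  rw [U1, Measure.restrict_apply hm1]
  have hs0 : 0 ≤ t / x := by positivity
  have e : {r | hm a r * x ≤ t} ∩ Icc 0 1 = Icc 0 ((t / x) ^ a) := by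
    ext r
    simp only [mem_inter_iff, mem_ofPred_eq, mem_Icc]
    have h1 : (t / x) ^ a ≤ 1 := Real.rpow_le_one hs0 hs ha.le
    constructor
    · rintro ⟨h2, h3, h4⟩
      refine ⟨h3, ?_⟩
      rw [hm, max_eq_left h3, ← le_div_iff₀ hx, one_div,
        Real.rpow_inv_le_iff_of_pos h3 hs0 ha] at h2
      exact h2
    · rintro ⟨h2, h3⟩
      refine ⟨?_, h2, by linarith⟩
      rw [hm, max_eq_left h2, ← le_div_iff₀ hx, one_div,
        Real.rpow_inv_le_iff_of_pos h2 hs0 ha]
      exact h3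
  rw [e, Real.volume_Icc, sub_zero]

theorem hm_set_big {a : ℝ} (ha : 0 < a) {x t : ℝ} (hx : 0 < x) (hs : 1 ≤ t / x) :
    U1 {r | hm a r * x ≤ t} = 1 := by
  have hm1 : MeasurableSet {r | hm a r * x ≤ t} :=
    measurableSet_le ((hm_meas a).mul_const x) measurable_const
  rw [U1, Measure.restrict_apply hm1]
  have e : {r | hm a r * x ≤ t} ∩ Icc 0 1 = Icc 0 1 := by
    ext r
    simp only [mem_inter_iff, mem_ofPred_eq, mem_Icc, and_iff_right_iff_imp]
    rintro ⟨h3, h4⟩
    rw [hm, max_eq_left h3, ← le_div_iff₀ hx]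
    exact (Real.rpow_le_one h3 h4 (by positivity)).trans hs
  rw [e, Real.volume_Icc]
  simp

theorem wf_eq {m : ℕ} (a : Fin m → ℝ) (t : ℝ) :
    Wf a t = Measure.pi (fun _ : Fin m => U1) {r | (∏ i, hm (a i) (r i)) * 1 ≤ t} := by
  have hm1 : MeasurableSet {r : Fin m → ℝ | (∏ i, hm (a i) (r i)) * 1 ≤ t} :=
    measurableSet_le ((prod_meas fun j => hm_meas (a j)).mul_const 1) measurable_const
  have e : Measure.pi (fun _ : Fin m => U1) =
      (volume : Measure (Fin m → ℝ)).restrict (Set.univ.pi fun _ => Icc 0 1) := by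
    rw [volume_pi, Measure.restrict_pi_pi]
    rfl
  rw [e, Measure.restrict_apply hm1, Wf]
  apply congrArg
  ext r
  simp only [mem_ofPred_eq, mem_inter_iff, mem_univ_pi, mem_Icc, mul_one]
  constructor
  · rintro ⟨h1, h2⟩
    refine ⟨?_, h1⟩
    have : ∏ i, hm (a i) (r i) = ∏ i, r i ^ (1 / a i) :=
      Finset.prod_congr rfl fun i _ => by rw [hm, max_eq_left (h1 i).1]
    rw [this]
    exact h2
  · rintro ⟨h2, h1⟩
    refine ⟨h1, ?_⟩
    have : ∏ i, hm (a i) (r i) = ∏ i, r i ^ (1 / a i) :=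
      Finset.prod_congr rfl fun i _ => by rw [hm, max_eq_left (h1 i).1]
    rw [← this]
    exact h2

/-- **RP-WU** -/
theorem wu : S_WU := by
  intro m Ω _ P _ f hf hf0 a ha C hC hP t ht
  have hd : ∀ i, Dom 1 (ENNReal.ofReal C) (P i) (f i) U1 (hm (a i)) := by
    intro i x hx t ht
    have hC1 : (1 : ℝ≥0∞) ≤ ENNReal.ofReal C := by
      rw [← ENNReal.ofReal_one]
      exact ENNReal.ofReal_le_ofReal hC
    rw [one_mul]
    rcases hx.eq_or_lt with h0 | h0
    · have e1 : {r | hm (a i) r * x ≤ t} = univ := by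
        ext r
        simp [← h0, ht.le]
      rw [e1, measure_univ, mul_one]
      exact prob_le_one.trans hC1
    · have e2 : {ω | f i ω * x ≤ t} = {ω | f i ω ≤ t / x} := by
        ext ω
        simp only [mem_ofPred_eq]
        rw [le_div_iff₀ h0]
      rw [e2]
      rcases le_total (t / x) 1 with h1 | h1
      · rw [hm_set (ha i) h0 ht h1, ← ENNReal.ofReal_mul (by linarith)]
        exact hP i _ (by positivity)
      · rw [hm_set_big (ha i) h0 h1, mul_one]
        exact prob_le_one.trans hC1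
  have h1 := dom_pi 1 (ENNReal.ofReal C) m Ω (fun _ => ℝ) P (fun _ => U1) f (fun i => hm (a i)) hf
    (fun i => hm_meas _) hf0 (fun i => hm_nonneg _) hd 1 zero_le_one t ht
  rw [one_pow, one_mul, ← wf_eq, ← ENNReal.ofReal_pow (by linarith)] at h1
  simp only [mul_one] at h1
  exact h1

/-- **RP-WL** -/
theorem wl : S_WL := by
  intro m Ω _ P _ f hf hf0 a ha c hc hP t ht
  have hd : ∀ i, Dom (ENNReal.ofReal c) 1 U1 (hm (a i)) (P i) (f i) := by
    intro i x hx t ht
    have hc1 : ENNReal.ofReal c ≤ P i {ω | f i ω ≤ 1} := by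
      have := hP i 1 one_pos le_rfl
      rwa [Real.one_rpow, mul_one] at this
    rw [one_mul]
    rcases hx.eq_or_lt with h0 | h0
    · have e1 : {r | f i r * x ≤ t} = univ := by
        ext r
        simp [← h0, ht.le]
      rw [e1, measure_univ]
      calc ENNReal.ofReal c * U1 {r | hm (a i) r * x ≤ t} ≤ ENNReal.ofReal c * 1 := by
            gcongr
            exact prob_le_one
        _ ≤ P i {ω | f i ω ≤ 1} := by rw [mul_one]; exact hc1
        _ ≤ 1 := prob_le_one
    · have e2 : {ω | f i ω * x ≤ t} = {ω | f i ω ≤ t / x} := by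
        ext ω
        simp only [mem_ofPred_eq]
        rw [le_div_iff₀ h0]
      rw [e2]
      rcases le_total (t / x) 1 with h1 | h1
      · rw [hm_set (ha i) h0 ht h1, ← ENNReal.ofReal_mul hc.le]
        exact hP i _ (by positivity) h1
      · rw [hm_set_big (ha i) h0 h1, mul_one]
        refine hc1.trans (measure_mono fun ω hω => ?_)
        simp only [mem_ofPred_eq] at hω ⊢
        exact hω.trans h1
  have h1 := dom_pi (ENNReal.ofReal c) 1 m (fun _ => ℝ) Ω (fun _ => U1) P (fun i => hm (a i)) f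
    (fun i => hm_meas _) hf (fun i => hm_nonneg _) hf0 hd 1 zero_le_one t ht
  rw [one_pow, one_mul, ← wf_eq, ← ENNReal.ofReal_pow hc.le] at h1
  simp only [mul_one] at h1
  exact h1

end Pool.Agent.W880.RP
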